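import Pool.Agent.Lib.MP_fa2e84_al.Stage1

namespace Pool.Agent.Results.MP_fa2e84_al.Counterexample

open scoped TensorProduct

/-- There is a commutative Noetherian local ring `R` and a finitely generated `R`-module `M` of
projective dimension at most three such that `M ⊗ M` is reflexive and `M` is not reflexive. -/
theorem result :
    ∃ (R : Type) (_ : CommRing R) (_ : IsNoetherianRing R) (_ : IsLocalRing R)
      (M : Type) (_ : AddCommGroup M) (_ : Module R M), Module.Finite R M ∧
      CategoryTheory.projectiveDimension (ModuleCat.of R M) ≤ (3 : ℕ) ∧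
      Module.IsReflexive R (M ⊗[R] M) ∧ ¬ Module.IsReflexive R M := by
  obtain ⟨R, i1, i2, i3, M, i4, i5, h1, h2, h3, h4⟩ := Pool.Agent.Lib.MP_fa2e84_al.goal
  exact ⟨R, i1, i2, i3, M, i4, i5, h1, (CategoryTheory.projectiveDimension_le_iff _ 3).2 h2, h3, h4⟩

end Pool.Agent.Results.MP_fa2e84_al.Counterexample
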